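import Pool.Agent.Lib.MP_6bdd40_al.AllB

/-- For every odd prime p: a finite p-group P, an irreducible complex representation ρ of P with
|P| = p^2 * χ(1)^2 and an element x of order p^3 with nonzero character value; so the order of x
does not divide |P| / χ(1)^2 = p^2. -/
theorem Pool.Agent.Results.MP_6bdd40_al.Counterexample.result :
    ∀ p : ℕ, p.Prime → Odd p →
      ∃ (P : Type) (_ : Group P) (_ : Finite P) (V : Type) (_ : AddCommGroup V) (_ : Module ℂ V)
        (_ : FiniteDimensional ℂ V) (ρ : Representation ℂ P V) (x : P),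
        IsPGroup p P ∧ ρ.IsIrreducible ∧ ρ.character x ≠ 0 ∧
        Nat.card P = p ^ 2 * Module.finrank ℂ V ^ 2 ∧ orderOf x = p ^ 3 ∧
        ¬ orderOf x ∣ Nat.card P / Module.finrank ℂ V ^ 2 := by
  intro p hp hodd
  have h2 : p ≠ 2 := by
    rintro rfl
    exact absurd hodd (by decide)
  obtain ⟨P, iG, iF, V, iA, iM, iD, ρ, x, h1, h3, h4, h5, h6⟩ :=
    Pool.Agent.Lib.MP_6bdd40_al.counter_all hp h2
  refine ⟨P, iG, iF, V, iA, iM, iD, ρ, x, h1, h3, h4, h5, h6, ?_⟩
  have hc : 0 < Nat.card P := Nat.card_pos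
  have hd : 0 < Module.finrank ℂ V ^ 2 := by
    rcases Nat.eq_zero_or_pos (Module.finrank ℂ V ^ 2) with h | h
    · rw [h, mul_zero] at h5
      omega
    · exact h
  rw [h5, h6, Nat.mul_div_cancel _ hd, Nat.pow_dvd_pow_iff_le_right hp.one_lt]
  omega
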